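import Pool.Agent.helper37.L5.SpecE

set_option autoImplicit false

namespace Pool.Agent.L5

open Pool.Agent.helper58.DC Pool.Agent.DI Pool.Agent.GR Pool.Agent.OB Pool.Agent.DR Pool.Agent.FI Pool.Agent.FI3 Pool.Agent.FI4 Pool.Agent.FI4I Pool.Agent.FI4E Pool.Agent.LE

theorem LBE5_mul {G : Type} [Group G] (g h : G) (P : Subgroup G) : cjS g (cjS h P) = cjS (g * h) P :=
  (cj_mul g h P).symm

theorem LBE5_mulF {G : Type} [Group G] (g h : G) (ψ : G → ℂ) : cjF g (cjF h ψ) = cjF (g * h) ψ :=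
  (Pool.Agent.FI.funMap_mul g h ψ).symm

theorem LBE5 (hACJ : ACJ5_stmt) (hDCT : DCT5_stmt) (hBAA : BAA_stmt) (hFEQ : FEQ_stmt)
    (hFSI : FSI_stmt) (hBKV : BKV_stmt) : LBE5_stmt := by
  classical
  intro p M hM G _ _ D x θ χ hR Q N hm φ hφ β hβN hβQ hk hst
  obtain ⟨k, hk1, hk2⟩ := hk
  have _inst : Fintype G := Fintype.ofFinite G
  obtain ⟨h₀, -, hA⟩ := hACJ p M hM G D x θ χ hR Q N hm φ hφ
  -- facts
  have hcz : ∀ (γ : MulAut G) (P : Subgroup G), cz (am γ P) = am γ (cz P) := fun γ P =>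
    (hBAA G M p γ P P P χ χ χ).1.1
  have hle : ∀ (γ : MulAut G) (P P' : Subgroup G), am γ P ≤ am γ P' ↔ P ≤ P' := fun γ P P' =>
    (hBAA G M p γ P P' P χ χ χ).1.2.2.1
  have hirr : ∀ (γ : MulAut G) (L : Subgroup G) (ψ : G → ℂ), ψ ∈ IrrOn L ↔ funMap γ ψ ∈ IrrOn (am γ L) :=
    fun γ L ψ => (hBAA G M p γ L L L χ ψ χ).2.2.1
  have hSBm : ∀ (γ : MulAut G) (L : Subgroup G) (η ψ : G → ℂ), SB M L η ψ ↔
      SB M (am γ L) (funMap γ η) (funMap γ ψ) := fun γ L η ψ => (hBAA G M p γ L L L η ψ χ).2.2.2.1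
  have hcj : ∀ (g : G) (P : Subgroup G), am β (cjS g P) = cjS (β g) (am β P) := fun g P =>
    ((hBAA G M p β P P P χ χ χ).2.2.2.2.2.2.2.2.1 g).1
  have hcjF : ∀ (g : G) (ψ : G → ℂ), funMap β (cjF g ψ) = cjF (β g) (funMap β ψ) := fun g ψ =>
    ((hBAA G M p β D D D χ ψ χ).2.2.2.2.2.2.2.2.1 g).2
  have hSBc : ∀ (g : G) (L : Subgroup G) (η ψ : G → ℂ), SB M L η ψ ↔
      SB M (cjS g L) (cjF g η) (cjF g ψ) := fun g L η ψ => (hFEQ G M g g L L L η ψ χ).2.2.2.2.1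
  have hczc : ∀ (g : G) (P : Subgroup G), cz (cjS g P) = cjS g (cz P) := fun g P => cj_cz g P
  have hfix : ∀ (g : G), cjS g D = D ↔ g ∈ nz D := fun g => cj_nz
  have honeS : cjS (1 : G) D = D := cj_one D
  have honeF : cjF (1 : G) θ = θ := funMap_one' θ
  have hθ : ∀ g : G, cjF g θ ∈ IrrOn (cz (cjS g D)) := by
    intro g
    have h1 := IrrOn_funMap hR.th g
    rw [hczc]
    exact h1
  -- the element `h'`
  have hE1 : ∀ h : G, am β (cjS h D) = cjS (β h * k) D := by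
    intro h
    rw [hcj, hk1, LBE5_mul]
  have hE2 : ∀ h : G, SB M (cz (cjS (β h * k) D)) (funMap β (cjF h θ)) (cjF (β h * k) θ) := by
    intro h
    have h1 := (hSBc (β h) _ _ _).1 hk2
    rw [← hczc, LBE5_mul, ← hcjF, LBE5_mulF] at h1
    exact h1
  have hAb : ∀ h : G, Q ≤ cjS h D ∧ SB M N (cjF h θ) φ →
      Q ≤ cjS (β h * k) D ∧ SB M N (cjF (β h * k) θ) φ := by
    rintro h ⟨hQ, hS⟩
    have hQ' : Q ≤ cjS (β h * k) D := by
      have h1 := (hle β Q (cjS h D)).2 hQ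
      rwa [hβQ, hE1] at h1
    refine ⟨hQ', ?_⟩
    have hcN : cz (cjS (β h * k) D) ≤ N := (hBKV p M hM G D x θ χ hR Q N hm (β h * k) hQ').2.1
    have h1 : SB M N (funMap β (cjF h θ)) φ := by
      have h2 := (hSBm β N _ _).1 hS
      rw [hβN] at h2
      exact h2.trans hst
    have h3 : funMap β (cjF h θ) ∈ IrrOn (cz (cjS (β h * k) D)) := by
      have h4 := (hirr β _ _).1 (hθ h)
      rwa [← hcz, hE1] at h4
    have h5 : SB M N (funMap β (cjF h θ)) (cjF (β h * k) θ) :=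
      (hFSI p M hM G (cz (cjS (β h * k) D)) N _ _).1 hcN h3.1 (hθ (β h * k)).1 (hE2 h)
    exact h5.symm.trans h1
  -- the condition
  have hcond : ∀ h m : G, FxR M (cjS h D) (cjF h θ) (al β m) ↔ h⁻¹ * m * (β h * k) ∈ TT M D θ := by
    intro h m
    have f1 : am (al β m) (cjS h D) = cjS (m * (β h * k)) D := by
      rw [am_al, hE1, LBE5_mul]
    have f2 : SB M (cz (cjS (m * (β h * k)) D)) (funMap (al β m) (cjF h θ)) (cjF (m * (β h * k)) θ) := by
      have h1 := (hSBc m _ _ _).1 (hE2 h)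
      rw [← hczc, LBE5_mul, ← funMap_al, LBE5_mulF] at h1
      exact h1
    have f3 : cjS (m * (β h * k)) D = cjS h D ↔ h⁻¹ * m * (β h * k) ∈ nz D := by
      rw [← hfix]
      constructor
      · intro h1
        rw [mul_assoc, ← LBE5_mul, h1, LBE5_mul, inv_mul_cancel, honeS]
      · intro h1
        have h2 : m * (β h * k) = h * (h⁻¹ * m * (β h * k)) := by group
        rw [h2, ← LBE5_mul, h1]
    rw [mem_TT]
    unfold FxR
    rw [f1, f3]
    refine and_congr_right fun h1 => ?_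
    have h2 := f3.2 h1
    rw [h2] at f2
    have h3 : SB M (cz (cjS h D)) (cjF (m * (β h * k)) θ) (cjF h θ) ↔
        SB M (cz D) (cjF (h⁻¹ * m * (β h * k)) θ) θ := by
      rw [hSBc h (cz D), ← hczc, LBE5_mulF]
      have h4 : h * (h⁻¹ * m * (β h * k)) = m * (β h * k) := by group
      rw [h4]
    refine Iff.trans ?_ h3
    exact ⟨fun h5 => f2.symm.trans h5, fun h5 => f2.trans h5⟩
  -- counting
  have hDC := hDCT G (TT M D θ) N h₀
  have hAset : {g : G | ∃ n ∈ N, ∃ t ∈ TT M D θ, g = n * h₀ * t} =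
      {g : G | Q ≤ cjS g D ∧ SB M N (cjF g θ) φ} := by
    ext g
    exact (hA g).symm
  rw [hAset] at hDC
  rw [← hDC]
  rw [Set.ncard_eq_toFinset_card', Set.ncard_eq_toFinset_card']
  rw [Finset.card_eq_sum_card_fiberwise (f := Prod.snd)
    (t := ({g : G | Q ≤ cjS g D ∧ SB M N (cjF g θ) φ} : Set G).toFinset)]
  · rw [← smul_eq_mul, ← Finset.sum_const]
    refine Finset.sum_congr rfl ?_
    intro h hh
    rw [Set.mem_toFinset] at hh
    have hh' : Q ≤ cjS h D ∧ SB M N (cjF h θ) φ := hh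
    obtain ⟨n, hn, t, ht, e1⟩ := (hA h).1 hh'
    obtain ⟨n', hn', t', ht', e2⟩ := (hA (β h * k)).1 (hAb h hh')
    have hc2 : ∀ m : G, FxR M (cjS h D) (cjF h θ) (al β m) ↔ n⁻¹ * m * n' ∈ cjS h₀ (TT M D θ) := by
      intro m
      rw [hcond, mem_cjS]
      have e3 : h⁻¹ * m * (β h * k) = t⁻¹ * (h₀⁻¹ * (n⁻¹ * m * n') * h₀) * t' := by
        rw [e2]
        conv_lhs => rw [e1]
        group
      rw [e3]
      constructor
      · intro h1
        have h2 := (TT M D θ).mul_mem ((TT M D θ).mul_mem ht h1) ((TT M D θ).inv_mem ht')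
        have h3 : t * (t⁻¹ * (h₀⁻¹ * (n⁻¹ * m * n') * h₀) * t') * t'⁻¹ = h₀⁻¹ * (n⁻¹ * m * n') * h₀ := by
          group
        rwa [h3] at h2
      · intro h1
        exact (TT M D θ).mul_mem ((TT M D θ).mul_mem ((TT M D θ).inv_mem ht) h1) ht'
    rw [Nat.card_eq_fintype_card, Fintype.card_subtype]
    refine Finset.card_bij (fun q _ => n⁻¹ * q.1 * n') ?_ ?_ ?_
    · intro q hq
      rw [Finset.mem_filter, Set.mem_toFinset] at hq
      obtain ⟨⟨q1, -, q3⟩, q4⟩ := hq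
      rw [q4] at q3
      rw [Finset.mem_filter]
      exact ⟨Finset.mem_univ _, N.mul_mem (N.mul_mem (N.inv_mem hn) q1) hn', (hc2 q.1).1 q3⟩
    · intro a ha b hb hab
      rw [Finset.mem_filter] at ha hb
      have h1 : n⁻¹ * a.1 * n' = n⁻¹ * b.1 * n' := hab
      have h2 : a.1 = b.1 := mul_left_cancel (mul_right_cancel h1)
      exact Prod.ext h2 (ha.2.trans hb.2.symm)
    · intro y hy
      rw [Finset.mem_filter] at hy
      obtain ⟨-, y1, y2⟩ := hy
      have e4 : n⁻¹ * (n * y * n'⁻¹) * n' = y := by group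
      refine ⟨(n * y * n'⁻¹, h), ?_, e4⟩
      rw [Finset.mem_filter, Set.mem_toFinset]
      refine ⟨⟨N.mul_mem (N.mul_mem hn y1) (N.inv_mem hn'), hh', ?_⟩, rfl⟩
      refine (hc2 _).2 ?_
      rw [e4]
      exact y2
  · intro q hq
    rw [Finset.mem_coe, Set.mem_toFinset] at hq
    rw [Finset.mem_coe, Set.mem_toFinset]
    exact hq.2.1

end Pool.Agent.L5
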