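import Pool.Agent.helper37.L5.Spec

set_option autoImplicit false

namespace Pool.Agent.L5

open Pool.Agent.helper58.DC Pool.Agent.DI Pool.Agent.GR Pool.Agent.OB Pool.Agent.DR Pool.Agent.FI Pool.Agent.FI3 Pool.Agent.FI4 Pool.Agent.FI4I Pool.Agent.LE

/-- the basic rules for conjugation, in the notation `cjS`, `cjF` -/
theorem ACJ5_mul {G : Type} [Group G] (g h : G) (P : Subgroup G) : cjS g (cjS h P) = cjS (g * h) P :=
  (cj_mul g h P).symm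

theorem ACJ5_mulF {G : Type} [Group G] (g h : G) (ψ : G → ℂ) : cjF g (cjF h ψ) = cjF (g * h) ψ :=
  (funMap_mul g h ψ).symm

theorem ACJ5_sub {G : Type} [Group G] (N P : Subgroup G) (n : N) :
    cjS n (P.subgroupOf N) = (cjS (n : G) P).subgroupOf N := by
  ext x
  rw [mem_cjS, Subgroup.mem_subgroupOf, Subgroup.mem_subgroupOf, mem_cjS]
  rfl

theorem ACJ5 (hLOA : LOA_stmt) (hBKN : BKN_stmt) (hBKV : BKV_stmt) (hFSI : FSI_stmt)
    (hFEQ : FEQ_stmt) (hCJG : CJG_stmt) (hRTN : RTN_stmt) (hTR1 : TR1_stmt) (hTR2 : TR2_stmt)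
    (hTR3 : TR3_stmt) (hTPR : Pool.Agent.FI.TPR_stmt) (hCJR : Pool.Agent.FI4I.CJR_stmt) : ACJ5_stmt := by
  intro p M hS G _ _ D x θ χ rt Q N hm φ hφ
  have hpD : IsPGroup p D := rt.dfa.pgrp
  -- the conjugates of the root
  have hθ : ∀ g : G, cjF g θ ∈ IrrOn (cz (cjS g D)) := by
    intro g
    have h1 := IrrOn_funMap rt.th g
    have h2 : cz (cjS g D) = cj g (cz D) := cj_cz g D
    rw [h2]
    exact h1
  have hIn : ∀ g : G, Induces M (cjF g θ) χ := fun g => Induces_funMap hS rt.ind g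
  have hRt : ∀ g : G, Rt p M (cjS g D) (g * x * g⁻¹) (cjF g θ) χ := fun g =>
    (hCJR p M hS G D x θ χ rt g (cjF g θ) (hθ g) (hIn g)).1
  have hczN : ∀ g : G, Q ≤ cjS g D → cjS g D ≤ N ∧ cz (cjS g D) ≤ N := fun g hg =>
    ⟨(hBKV p M hS G D x θ χ rt Q N hm g hg).1, (hBKV p M hS G D x θ χ rt Q N hm g hg).2.1⟩
  have hcard : ∀ g : G, ∀ P : Subgroup G, Nat.card (cjS g P) = Nat.card P := fun g P => card_cj g P
  have hvan : ∀ g : G, Q ≤ cjS g D → ∀ y, y ∉ N → cjF g θ y = 0 := fun g hg y hy =>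
    IrrOn_zero (hθ g) fun h => hy ((hczN g hg).2 h)
  -- existence
  obtain ⟨g₁, hQ1, θ₁, hθ₁, hSB1, hInd1⟩ := hBKN p M hS G D x θ χ rt Q N hm φ hφ
  obtain ⟨h, hle, hSB⟩ := (hLOA p M hS G D x θ χ rt).con (cjS g₁ D) (cj_pgroup g₁ hpD) θ₁ hθ₁ hInd1
  have hD : cjS h (cjS g₁ D) = D := by
    refine Subgroup.eq_of_le_of_card_ge hle ?_
    rw [hcard, hcard]
  have hD' : cjS h⁻¹ D = cjS g₁ D := by
    conv_lhs => rw [← hD]
    exact cj_inv_cj h (cjS g₁ D)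
  have hQ0 : Q ≤ cjS h⁻¹ D := by
    rw [hD']
    exact hQ1
  have hSB0 : SB M N (cjF h⁻¹ θ) φ := by
    rw [hD] at hSB
    have e1 : SB M (cj h⁻¹ (cz D)) (cjF h⁻¹ θ) (cjF h⁻¹ (cjF h θ₁)) := SB_conj hSB h⁻¹
    have e2 : cjF h⁻¹ (cjF h θ₁) = θ₁ := by
      rw [ACJ5_mulF, inv_mul_cancel]
      exact funMap_one' θ₁
    have e3 : cj h⁻¹ (cz D) = cz (cjS h⁻¹ D) := (cj_cz h⁻¹ D).symm
    rw [e2, e3] at e1
    have e4 : SB M N (cjF h⁻¹ θ) θ₁ := by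
      refine (hFSI p M hS G (cz (cjS h⁻¹ D)) N (cjF h⁻¹ θ) θ₁).1 (hczN h⁻¹ hQ0).2 (hθ h⁻¹).1 ?_ e1
      rw [hD']
      exact hθ₁.1
    exact e4.trans hSB1
  refine ⟨h⁻¹, ⟨hQ0, hSB0⟩, ?_⟩
  generalize h⁻¹ = g₀ at hQ0 hSB0
  intro g
  constructor
  · rintro ⟨hQg, hSg⟩
    -- the type `N`
    obtain ⟨x'', rt''⟩ := hRTN p M hS G (cjS g D) (g * x * g⁻¹) (cjF g θ) χ (hRt g) N (hczN g hQg).2 φ hφ.1 hSg
    have hcz0 : cz ((cjS g₀ D).subgroupOf N) = (cz (cjS g₀ D)).subgroupOf N :=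
      ((hTR3 p G N).1 (cjS g₀ D) (hczN g₀ hQ0).1).1
    have hczg : cz ((cjS g D).subgroupOf N) = (cz (cjS g D)).subgroupOf N :=
      ((hTR3 p G N).1 (cjS g D) (hczN g hQg).1).1
    have k1 : IsPGroup p ((cjS g₀ D).subgroupOf N) :=
      ((hTR3 p G N).2.1 (cjS g₀ D) (hczN g₀ hQ0).1).2.2 (cj_pgroup g₀ hpD)
    have k2 : rN N (cjF g₀ θ) ∈ IrrOn (cz ((cjS g₀ D).subgroupOf N)) := by
      rw [hcz0]
      exact ((hTR1 G N (cz (cjS g₀ D)) (hczN g₀ hQ0).2).1 (cjF g₀ θ) (hvan g₀ hQ0)).1 (hθ g₀)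
    have k3 : Induces M (rN N (cjF g₀ θ)) (rN N φ) := by
      refine ((hTPR p M hS N).2.1 _ _).2 ?_
      have e1 := ((hTR2 G M N).2.1 N le_rfl (cjF g₀ θ) φ (hvan g₀ hQ0) hφ.1.1).1 hSB0
      rwa [Subgroup.subgroupOf_self] at e1
    obtain ⟨n, hn1, hn2⟩ := (hLOA p M hS N ((cjS g D).subgroupOf N) x'' (rN N (cjF g θ)) (rN N φ) rt'').con
      ((cjS g₀ D).subgroupOf N) k1 (rN N (cjF g₀ θ)) k2 k3
    have hn1' : cjS n ((cjS g₀ D).subgroupOf N) ≤ (cjS g D).subgroupOf N := hn1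
    have hn2' : SB M (cz (cjS n ((cjS g₀ D).subgroupOf N))) (rN N (cjF g θ)) (cjF n (rN N (cjF g₀ θ))) := hn2
    rw [ACJ5_sub] at hn1' hn2'
    have hnle : cjS (n : G) (cjS g₀ D) ≤ cjS g D := by
      intro y hy
      have hyN : y ∈ N := by
        have e1 : (n : G)⁻¹ * y * n ∈ N := (hczN g₀ hQ0).1 (mem_cjS.1 hy)
        have e2 := N.mul_mem (N.mul_mem n.2 e1) (N.inv_mem n.2)
        have e3 : (n : G) * ((n : G)⁻¹ * y * n) * (n : G)⁻¹ = y := by group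
        rwa [e3] at e2
      have e4 : (⟨y, hyN⟩ : N) ∈ (cjS (n : G) (cjS g₀ D)).subgroupOf N := hy
      exact hn1' e4
    have hnD : cjS (n : G) (cjS g₀ D) = cjS g D := by
      refine Subgroup.eq_of_le_of_card_ge hnle ?_
      rw [hcard, hcard, hcard]
    have hvn : ∀ y, y ∉ N → cjF (n : G) (cjF g₀ θ) y = 0 := by
      intro y hy
      rw [cjF_apply]
      refine hvan g₀ hQ0 _ fun e1 => hy ?_
      have e2 := N.mul_mem (N.mul_mem n.2 e1) (N.inv_mem n.2)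
      have e3 : (n : G) * ((n : G)⁻¹ * y * n) * (n : G)⁻¹ = y := by group
      rwa [e3] at e2
    have hSB3 : SB M (cz (cjS g D)) (cjF g θ) (cjF (n : G) (cjF g₀ θ)) := by
      have e1 : cjF n (rN N (cjF g₀ θ)) = rN N (cjF (n : G) (cjF g₀ θ)) :=
        (hTR2 G M N).2.2.2 n (cjF g₀ θ)
      rw [hnD, hczg, e1] at hn2'
      exact ((hTR2 G M N).2.1 (cz (cjS g D)) (hczN g hQg).2 (cjF g θ) (cjF (n : G) (cjF g₀ θ))
        (hvan g hQg) hvn).2 hn2'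
    have ht1 : g⁻¹ * (n : G) * g₀ ∈ nz D := by
      rw [← cj_nz]
      have e1 : cjS g⁻¹ (cjS (n : G) (cjS g₀ D)) = cjS g⁻¹ (cjS g D) := by rw [hnD]
      rw [ACJ5_mul, ACJ5_mul, ACJ5_mul, inv_mul_cancel] at e1
      have e2 : cjS (1 : G) D = D := cj_one D
      rw [e2] at e1
      exact e1
    have ht2 : SB M (cz D) θ (cjF (g⁻¹ * (n : G) * g₀) θ) := by
      have e1 : SB M (cj g⁻¹ (cz (cjS g D))) (cjF g⁻¹ (cjF g θ)) (cjF g⁻¹ (cjF (n : G) (cjF g₀ θ))) :=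
        SB_conj hSB3 g⁻¹
      have e2 : cj g⁻¹ (cz (cjS g D)) = cz D := by
        rw [← cj_cz]
        have e3 : cj g⁻¹ (cjS g D) = D := cj_inv_cj g D
        rw [e3]
      have e4 : cjF (1 : G) θ = θ := funMap_one' θ
      rw [e2, ACJ5_mulF, ACJ5_mulF, ACJ5_mulF, inv_mul_cancel, e4] at e1
      exact e1
    have ht : g⁻¹ * (n : G) * g₀ ∈ TT M D θ := mem_TT.2 ⟨ht1, ht2.symm⟩
    refine ⟨n, n.2, (g⁻¹ * (n : G) * g₀)⁻¹, (TT M D θ).inv_mem ht, ?_⟩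
    group
  · rintro ⟨n, hn, t, ht, rfl⟩
    obtain ⟨ht1, ht2⟩ := mem_TT.1 ht
    have hDt : cjS t D = D := cj_nz.2 ht1
    have hDg : cjS (n * g₀ * t) D = cjS n (cjS g₀ D) := by
      rw [← ACJ5_mul, hDt, ← ACJ5_mul]
    constructor
    · rw [hDg]
      have e1 : cjS n Q = Q := cj_nz.2 (hm.nle hn)
      have e2 : cjS n Q ≤ cjS n (cjS g₀ D) := cj_mono hQ0
      rwa [e1] at e2
    · have e1 : SB M (cj g₀ (cz D)) (cjF g₀ (cjF t θ)) (cjF g₀ θ) := SB_conj ht2 g₀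
      rw [← cj_cz] at e1
      have hz : ∀ y, y ∉ cz (cjS g₀ D) → cjF g₀ (cjF t θ) y = 0 := by
        have e2 : cjF t θ ∈ IrrOn (cz (cjS t D)) := hθ t
        rw [hDt] at e2
        have e3 := IrrOn_funMap e2 g₀
        rw [← cj_cz] at e3
        exact e3.1
      have e4 : SB M N (cjF g₀ (cjF t θ)) (cjF g₀ θ) :=
        (hFSI p M hS G (cz (cjS g₀ D)) N _ _).1 (hczN g₀ hQ0).2 hz (hθ g₀).1 e1
      have e5 : SB M (cj n N) (cjF n (cjF g₀ (cjF t θ))) (cjF n (cjF g₀ θ)) := SB_conj e4 n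
      rw [cj_self hn] at e5
      have e6 : SB M N (cjF n (cjF g₀ θ)) (cjF g₀ θ) := SB_inner hn _
      have e7 : cjF n (cjF g₀ (cjF t θ)) = cjF (n * g₀ * t) θ := by
        rw [ACJ5_mulF, ACJ5_mulF, mul_assoc]
      rw [e7] at e5
      exact (e5.trans e6).trans hSB0

end Pool.Agent.L5
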